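import Pool.Agent.Z695.Q.Stm
import Pool.Agent.Y697.CX.Ke2

/-!
# CV-KEY: the sum over the boxes (modulus 40)

A copy of CQ-KEY (helper697, Pool.Agent.Y697.CQ) with the changes of project CV.
-/

set_option autoImplicit false

namespace Pool.Agent.Y328.CV

open Finset
open Pool.Agent.Y703.CX (sm la jj XX)
open Pool.Agent.Y703.CQ (nr cu Sol Gd Nd c2 sg prs HB ext GdA S_BIL S_EQ S_LA S_BOX)
open Pool.Agent.Z695.Q
open Pool.Agent.Y697.CX (le_XX sm_union sm_disj prod_split card_split fcc root_le card_sub sum_inv)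
open scoped Classical

theorem in_prime {e : ℕ} {p : ℕ} (h : Sp p ∨ In e p) : p.Prime := by
  rcases h with h | h
  · exact h.1
  · exact h.1

theorem in_mod {e : ℕ} (hI : Ok e) {p : ℕ} (h : Sp p ∨ In e p) :
    p % 8 = 1 ∨ p % 8 = 3 ∨ p % 8 = 7 := by
  rcases h with h | h
  · exact Or.inl h.2.1
  · have h1 := h.2.1
    rcases hI with h2 | h2
    · exact Or.inr (Or.inl (h1.trans h2))
    · exact Or.inr (Or.inr (h1.trans h2))

theorem mem_SS {e : ℕ} {X : ℕ} {S : Finset ℕ} :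
    S ∈ SS e X ↔ Cl e S ∧ ∏ p ∈ S, p ≤ X := by
  unfold SS
  rw [Finset.mem_filter, Finset.mem_powerset]
  constructor
  · exact fun h => h.2
  · intro h
    refine ⟨fun p hp => ?_, h⟩
    rw [Finset.mem_range]
    have h1 : p ≤ ∏ q ∈ S, q :=
      Finset.single_le_prod' (f := fun q => q) (fun q hq => (in_prime (h.1.1 q hq)).one_lt.le) hp
    omega

/-- the label of a large prime -/
noncomputable def ph (H p : ℕ) : ℕ := 8 * jj H p + p % 8

theorem ph_div (H p : ℕ) : ph H p / 8 = jj H p := by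
  unfold ph; omega

theorem ph_mod (H p : ℕ) : ph H p % 8 = p % 8 := by
  unfold ph; omega

/-- the key of a set -/
noncomputable def ky (z H : ℕ) (S : Finset ℕ) : Finset ℕ × Finset ℕ :=
  (sm z S, (la z S).image (ph H))

/-- the primes of a block -/
noncomputable def CC (e : ℕ) (z H k : ℕ) : Finset ℕ :=
  (range (XX H (k / 8) + 1)).filter fun p => (Sp p ∨ In e p) ∧ z < p ∧ ph H p = k

theorem mem_CC {e : ℕ} {z H : ℕ} (hH : 1 ≤ H) {k p : ℕ} :
    p ∈ CC e z H k ↔ (Sp p ∨ In e p) ∧ z < p ∧ ph H p = k := by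
  unfold CC
  rw [Finset.mem_filter, Finset.mem_range]
  constructor
  · exact fun h => h.2
  · intro h
    refine ⟨?_, h⟩
    have := le_XX hH (in_prime h.1).one_lt.le
    have h1 : jj H p = k / 8 := by rw [← h.2.2, ph_div]
    rw [h1] at this
    omega

/-- the conditions on a key -/
def Cd (e : ℕ) (X k V H : ℕ) (S₀ J : Finset ℕ) : Prop :=
  ((S₀.filter fun p => p % 8 = e).card + (J.filter fun i => i % 8 = e).card) % 2 = 0 ∧
  S₀.card + J.card ≤ k ∧ (∏ p ∈ S₀, p) * ∏ i ∈ J, XX H (i / 8) ≤ X ∧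
  2 * S₀.card + V < (J.filter fun i => i % 8 = 1).card ∧ ∃ i ∈ J, i % 8 ≠ 1

theorem ph_inj {H : ℕ} {L : Finset ℕ} (h : Set.InjOn (jj H) (L : Set ℕ)) :
    Set.InjOn (ph H) (L : Set ℕ) := fun a ha b hb hab => h ha hb (by
  rw [← ph_div, ← ph_div, hab])

theorem prod_ph {M : Type} [CommMonoid M] {H : ℕ} {L : Finset ℕ}
    (h : Set.InjOn (jj H) (L : Set ℕ)) (f : ℕ → M) :
    ∏ i ∈ L.image (ph H), f i = ∏ p ∈ L, f (ph H p) :=
  Finset.prod_image fun a ha b hb hab => ph_inj h ha hb hab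

theorem card_ph {H : ℕ} {L : Finset ℕ} (h : Set.InjOn (jj H) (L : Set ℕ)) (P : ℕ → Prop)
    (Q : ℕ → Prop) (hPQ : ∀ p, P p ↔ Q (ph H p)) :
    ((L.image (ph H)).filter Q).card = (L.filter P).card := by
  rw [Finset.filter_image, Finset.card_image_of_injOn]
  · congr 1
    ext p
    simp only [Finset.mem_filter, hPQ]
  · intro a ha b hb hab
    rw [Finset.mem_coe, Finset.mem_filter] at ha hb
    exact ph_inj h ha.1 hb.1 hab

theorem mem_RR {e : ℕ} {X z H k V : ℕ} (hH : 1 ≤ H) {S : Finset ℕ} :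
    S ∈ RR e X z H k V ↔ (∀ p ∈ S, Sp p ∨ In e p) ∧ Set.InjOn (jj H) (la z S : Set ℕ) ∧
      Cd e X k V H (ky z H S).1 (ky z H S).2 := by
  unfold RR
  rw [Finset.mem_filter, mem_SS]
  have hk1 : (ky z H S).1 = sm z S := rfl
  have hk2 : (ky z H S).2 = (la z S).image (ph H) := rfl
  rw [hk1, hk2]
  have key : Set.InjOn (jj H) (la z S : Set ℕ) →
      ((S.filter fun p => p % 8 = e).card = ((sm z S).filter fun p => p % 8 = e).card +
        (((la z S).image (ph H)).filter fun i => i % 8 = e).card) ∧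
      (S.card = (sm z S).card + ((la z S).image (ph H)).card) ∧
      (∏ i ∈ (la z S).image (ph H), XX H (i / 8) = ∏ p ∈ la z S, XX H (jj H p)) ∧
      ((((la z S).image (ph H)).filter fun i => i % 8 = 1).card =
        ((la z S).filter fun p => p % 8 = 1).card) ∧
      ((∃ i ∈ (la z S).image (ph H), i % 8 ≠ 1) ↔ ∃ p ∈ la z S, p % 8 ≠ 1) := by
    intro h
    refine ⟨?_, ?_, ?_, ?_, ?_⟩
    · rw [card_split z]
      congr 1
      convert (card_ph h (fun p => p % 8 = e) (fun i => i % 8 = e)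
        (fun p => by rw [ph_mod])).symm
    · rw [Finset.card_image_of_injOn (ph_inj h), ← Finset.card_union_of_disjoint (sm_disj z S),
        sm_union]
    · rw [prod_ph h]
      exact Finset.prod_congr rfl fun p _ => by rw [ph_div]
    · convert card_ph h (fun p => p % 8 = 1) (fun i => i % 8 = 1) (fun p => by rw [ph_mod])
    · constructor
      · rintro ⟨i, hi, h1⟩
        rw [Finset.mem_image] at hi
        obtain ⟨p, hp, rfl⟩ := hi
        exact ⟨p, hp, by rwa [ph_mod] at h1⟩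
      · rintro ⟨p, hp, h1⟩
        exact ⟨ph H p, Finset.mem_image_of_mem _ hp, by rwa [ph_mod]⟩
  unfold Cl Cd
  constructor
  · rintro ⟨⟨⟨h1, h2⟩, h5⟩, h6, h7, h8, h9, h10⟩
    obtain ⟨k1, k3, k4, k5, k6⟩ := key h6
    refine ⟨h1, h6, ?_, ?_, ?_, ?_, ?_⟩
    · rw [← k1]; exact h2
    · rw [← k3]; exact h7
    · rw [k4]; exact h8
    · rw [k5]; exact h9
    · rw [k6]; exact h10
  · rintro ⟨h1, h6, h2, h7, h8, h9, h10⟩
    obtain ⟨k1, k3, k4, k5, k6⟩ := key h6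
    rw [← k1] at h2
    rw [← k3] at h7
    rw [k4] at h8
    rw [k5] at h9
    rw [k6] at h10
    refine ⟨⟨⟨h1, h2⟩, ?_⟩, h6, h7, h8, h9, h10⟩
    refine le_trans ?_ h8
    rw [prod_split z S]
    apply Nat.mul_le_mul_left
    exact Finset.prod_le_prod' fun p hp =>
      le_XX hH (in_prime (h1 p (Finset.mem_filter.1 hp).1)).one_lt.le

section fill
variable {e : ℕ} {z H : ℕ} {S₀ : Finset ℕ} {J : Finset ℕ} {p : J → ℕ}

theorem sm_fill (hH : 1 ≤ H) (h₀ : ∀ q ∈ S₀, q ≤ z) (hp : ∀ i : J, p i ∈ CC e z H i) :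
    sm z (S₀ ∪ univ.image p) = S₀ := by
  ext q
  unfold sm
  rw [Finset.mem_filter, Finset.mem_union, Finset.mem_image]
  constructor
  · rintro ⟨h | ⟨i, -, rfl⟩, h2⟩
    · exact h
    · have := ((mem_CC hH).1 (hp i)).2.1
      omega
  · exact fun h => ⟨Or.inl h, h₀ q h⟩

theorem la_fill (hH : 1 ≤ H) (h₀ : ∀ q ∈ S₀, q ≤ z) (hp : ∀ i : J, p i ∈ CC e z H i) :
    la z (S₀ ∪ univ.image p) = univ.image p := by
  ext q
  unfold la
  rw [Finset.mem_filter, Finset.mem_union, Finset.mem_image]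
  constructor
  · rintro ⟨h | h, h2⟩
    · exact absurd (h₀ q h) h2
    · exact h
  · rintro ⟨i, -, rfl⟩
    have := ((mem_CC hH).1 (hp i)).2.1
    exact ⟨Or.inr ⟨i, Finset.mem_univ _, rfl⟩, by omega⟩

theorem ph_fill (hH : 1 ≤ H) (hp : ∀ i : J, p i ∈ CC e z H i) :
    (univ.image p).image (ph H) = J := by
  ext k
  rw [Finset.mem_image]
  constructor
  · rintro ⟨q, hq, rfl⟩
    rw [Finset.mem_image] at hq
    obtain ⟨i, -, rfl⟩ := hq
    rw [((mem_CC hH).1 (hp i)).2.2]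
    exact i.2
  · intro hk
    exact ⟨p ⟨k, hk⟩, Finset.mem_image_of_mem _ (Finset.mem_univ _),
      ((mem_CC hH).1 (hp ⟨k, hk⟩)).2.2⟩

theorem inj_fill (hH : 1 ≤ H) (hp : ∀ i : J, p i ∈ CC e z H i) : Function.Injective p := by
  intro i j hij
  have h1 := ((mem_CC hH).1 (hp i)).2.2
  have h2 := ((mem_CC hH).1 (hp j)).2.2
  rw [hij, h2] at h1
  exact Subtype.ext h1.symm

theorem ky_fill (hH : 1 ≤ H) (h₀ : ∀ q ∈ S₀, q ≤ z) (hp : ∀ i : J, p i ∈ CC e z H i) :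
    ky z H (S₀ ∪ univ.image p) = (S₀, J) := by
  unfold ky
  rw [sm_fill hH h₀ hp, la_fill hH h₀ hp, ph_fill hH hp]

end fill

/-- the facts on the key of a regular set -/
theorem key_facts {e : ℕ} {X z H k V : ℕ} (hI : Ok e) (hH : 1 ≤ H)
    {S₀ J : Finset ℕ} (hkey : (S₀, J) ∈ (RR e X z H k V).image (ky z H)) :
    (∀ q ∈ S₀, Sp q ∨ In e q) ∧ (∀ q ∈ S₀, q ≤ z) ∧ Set.InjOn (fun i : ℕ => i / 8) (J : Set ℕ) ∧
      Cd e X k V H S₀ J ∧ (∀ i ∈ J, (i % 8 = 1 ∨ i % 8 = 3 ∨ i % 8 = 7) ∧ z ≤ XX H (i / 8) ∧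
        ∃ q : ℕ, q.Prime ∧ z < q ∧ q ≤ X ∧ ph H q = i) := by
  rw [Finset.mem_image] at hkey
  obtain ⟨W, hW, hWk⟩ := hkey
  have hWX : ∏ p ∈ W, p ≤ X := by
    unfold RR at hW
    rw [Finset.mem_filter, mem_SS] at hW
    exact hW.1.2
  rw [mem_RR hH, hWk] at hW
  obtain ⟨h1, h2, h3⟩ := hW
  have hS₀ : sm z W = S₀ := congrArg Prod.fst hWk
  have hJ : (la z W).image (ph H) = J := congrArg Prod.snd hWk
  refine ⟨?_, ?_, ?_, h3, ?_⟩
  · intro q hq
    rw [← hS₀] at hq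
    exact h1 q (Finset.mem_filter.1 hq).1
  · intro q hq
    rw [← hS₀] at hq
    exact (Finset.mem_filter.1 hq).2
  · intro a ha b hb hab
    rw [Finset.mem_coe, ← hJ, Finset.mem_image] at ha hb
    obtain ⟨x, hx, rfl⟩ := ha
    obtain ⟨y, hy, rfl⟩ := hb
    simp only [ph_div] at hab
    have h4 : x = y := h2 (Finset.mem_coe.2 hx) (Finset.mem_coe.2 hy) hab
    rw [h4]
  · intro i hi
    rw [← hJ, Finset.mem_image] at hi
    obtain ⟨q, hq, rfl⟩ := hi
    have hqW := (Finset.mem_filter.1 hq).1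
    have hqz := (Finset.mem_filter.1 hq).2
    have hqI := h1 q hqW
    have hqp := in_prime hqI
    have hqX : q ≤ X := (Finset.single_le_prod' (f := fun q => q)
      (fun q hq => (in_prime (h1 q hq)).one_lt.le) hqW).trans hWX
    refine ⟨?_, ?_, q, hqp, by omega, hqX, rfl⟩
    · rw [ph_mod]
      exact in_mod hI hqI
    · rw [ph_div]
      have := le_XX hH hqp.one_lt.le
      omega

theorem key_bij {e : ℕ} {X z H k V : ℕ} (hI : Ok e) (hH : 1 ≤ H) {S₀ J : Finset ℕ}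
    (hkey : (S₀, J) ∈ (RR e X z H k V).image (ky z H)) (P : Finset ℕ → Prop) :
    ((Fintype.piFinset fun i : J => CC e z H i).filter fun p => P (S₀ ∪ univ.image p)).card =
      ((RR e X z H k V).filter fun S => ky z H S = (S₀, J) ∧ P S).card := by
  obtain ⟨h₀O, h₀, hJi, hCd, hJf⟩ := key_facts hI hH hkey
  apply Finset.card_bij (fun (p : J → ℕ) _ => S₀ ∪ univ.image p)
  · intro p hp
    rw [Finset.mem_filter, Fintype.mem_piFinset] at hp
    obtain ⟨hp, hP⟩ := hp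
    have hk := ky_fill hH h₀ hp
    rw [Finset.mem_filter]
    refine ⟨?_, hk, hP⟩
    rw [mem_RR hH, hk]
    refine ⟨?_, ?_, hCd⟩
    · intro q hq
      rw [Finset.mem_union, Finset.mem_image] at hq
      rcases hq with hq | ⟨i, -, rfl⟩
      · exact h₀O q hq
      · exact ((mem_CC hH).1 (hp i)).1
    · rw [la_fill hH h₀ hp]
      intro a ha b hb hab
      rw [Finset.mem_coe, Finset.mem_image] at ha hb
      obtain ⟨i, -, rfl⟩ := ha
      obtain ⟨j, -, rfl⟩ := hb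
      have h1 := ((mem_CC hH).1 (hp i)).2.2
      have h2 := ((mem_CC hH).1 (hp j)).2.2
      have h3 : i.1 / 8 = j.1 / 8 := by
        rw [← h1, ← h2, ph_div, ph_div]
        exact hab
      have h4 : i = j := Subtype.ext (hJi (Finset.mem_coe.2 i.2) (Finset.mem_coe.2 j.2) h3)
      rw [h4]
  · intro p hp p' hp' h
    rw [Finset.mem_filter, Fintype.mem_piFinset] at hp hp'
    have h1 := la_fill hH h₀ hp.1
    rw [h, la_fill hH h₀ hp'.1] at h1
    funext i
    have h2 : p i ∈ univ.image p' := by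
      rw [h1]
      exact Finset.mem_image_of_mem _ (Finset.mem_univ _)
    rw [Finset.mem_image] at h2
    obtain ⟨j, -, hj⟩ := h2
    have h3 := ((mem_CC hH).1 (hp.1 i)).2.2
    have h4 := ((mem_CC hH).1 (hp'.1 j)).2.2
    rw [hj, h3] at h4
    rw [← hj, Subtype.ext h4]
  · intro S hS
    rw [Finset.mem_filter] at hS
    obtain ⟨hSR, hSk, hSP⟩ := hS
    rw [mem_RR hH] at hSR
    obtain ⟨hSO, hSI, -⟩ := hSR
    have hk1 : sm z S = S₀ := congrArg Prod.fst hSk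
    have hk2 : (la z S).image (ph H) = J := congrArg Prod.snd hSk
    have hex : ∀ i : J, ∃ q ∈ la z S, ph H q = i := by
      rintro ⟨i, hi⟩
      rw [← hk2, Finset.mem_image] at hi
      exact hi
    choose p hp1 hp2 using hex
    have him : univ.image p = la z S := by
      ext q
      rw [Finset.mem_image]
      constructor
      · rintro ⟨i, -, rfl⟩
        exact hp1 i
      · intro hq
        have hjq : ph H q ∈ J := by
          rw [← hk2]
          exact Finset.mem_image_of_mem _ hq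
        exact ⟨⟨ph H q, hjq⟩, Finset.mem_univ _, ph_inj hSI (Finset.mem_coe.2 (hp1 _))
          (Finset.mem_coe.2 hq) (hp2 ⟨ph H q, hjq⟩)⟩
    have hSe : S₀ ∪ univ.image p = S := by rw [him, ← hk1, sm_union]
    refine ⟨p, ?_, hSe⟩
    rw [Finset.mem_filter, Fintype.mem_piFinset, hSe]
    refine ⟨fun i => (mem_CC hH).2 ⟨hSO _ (Finset.mem_filter.1 (hp1 i)).1,
      not_le.1 (Finset.mem_filter.1 (hp1 i)).2, hp2 i⟩, hSP⟩

theorem hb_box {C₁ : ℝ} (hb1 : ∀ (P Q : Finset ℕ) (A B z : ℕ) (c d : ℕ → ℂ),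
      (∀ p ∈ P, p.Prime ∧ p % 8 = 1 ∧ p ≤ A) → (∀ q ∈ Q, q.Prime ∧ q ≠ 2 ∧ q ≤ B) →
      Disjoint P Q → 1 ≤ z → z ≤ A → z ≤ B → (∀ p, ‖c p‖ ≤ 1) → (∀ q, ‖d q‖ ≤ 1) →
      ‖∑ p ∈ P, ∑ q ∈ Q, c p * d q * sg (nr p q)‖ ^ 12 * z ≤ C₁ * ((A : ℝ) * B) ^ 12)
    {ι : Type} (J1 : Finset ι) (D : ι → Finset ℕ) (X : ι → ℕ) {z : ℕ} {κ : ℝ}
    (hz : 1 ≤ z) (hκ : 0 ≤ κ) (h1 : C₁ ≤ κ ^ 12 * z)
    (hX : ∀ i, z ≤ X i) (hD : ∀ i, ∀ p ∈ D i, p.Prime ∧ p ≠ 2 ∧ p ≤ X i ∧ (i ∈ J1 → p % 8 = 1))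
    (hdis : ∀ i l, i ≠ l → Disjoint (D i) (D l)) :
    HB J1 D X κ := by
  intro i l hil hi c d hc hd
  refine root_le (norm_nonneg _) (by positivity) hκ hz (hb1 (D i) (D l) (X i) (X l) z c d
    (fun p hp => ?_) (fun q hq => ?_) (hdis i l hil) hz (hX i) (hX l) hc hd) h1
  · obtain ⟨k1, k2, k3, k4⟩ := hD i p hp
    exact ⟨k1, k4 hi, k3⟩
  · obtain ⟨k1, k2, k3, -⟩ := hD l q hq
    exact ⟨k1, k2, k3⟩

theorem per_key (hE : S_EQ) (hL : S_LA) (hB : S_BOX) {C₁ : ℝ}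
    (hb1 : ∀ (P Q : Finset ℕ) (A B z : ℕ) (c d : ℕ → ℂ),
      (∀ p ∈ P, p.Prime ∧ p % 8 = 1 ∧ p ≤ A) → (∀ q ∈ Q, q.Prime ∧ q ≠ 2 ∧ q ≤ B) →
      Disjoint P Q → 1 ≤ z → z ≤ A → z ≤ B → (∀ p, ‖c p‖ ≤ 1) → (∀ q, ‖d q‖ ≤ 1) →
      ‖∑ p ∈ P, ∑ q ∈ Q, c p * d q * sg (nr p q)‖ ^ 12 * z ≤ C₁ * ((A : ℝ) * B) ^ 12)
    {e : ℕ} (f : ℕ → ZMod 2) (hI : Ok e)
    {X z H k V : ℕ} {κ : ℝ} (hH : 1 ≤ H) (hz : 1 ≤ z) (hκ : 0 ≤ κ)
    (h1 : C₁ ≤ κ ^ 12 * z) {S₀ J : Finset ℕ}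
    (hkey : (S₀, J) ∈ (RR e X z H k V).image (ky z H)) :
    |(((RR e X z H k V).filter fun S => ky z H S = (S₀, J) ∧
        (Nd (sm z S) (la z S) ∧ Gd f S)).card : ℝ) -
      c2 * (((RR e X z H k V).filter fun S => ky z H S = (S₀, J) ∧
        Nd (sm z S) (la z S)).card : ℝ)| ≤
    2 * (1 / 2 : ℝ) ^ V * (((RR e X z H k V).filter fun S => ky z H S = (S₀, J) ∧ True).card : ℝ) +
      (3 ^ (3 * k ^ 2) * κ) * (X * (1 / ((∏ p ∈ S₀, p : ℕ) : ℝ))) := by
  obtain ⟨h₀O, h₀, hJi, hCd, hJf⟩ := key_facts hI hH hkey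
  obtain ⟨c1, c4, c5, c6, c7⟩ := hCd
  set J1 : Finset J := univ.filter fun i : J => i.1 % 8 = 1 with hJ1
  have hmJ1 : ∀ i : J, i ∈ J1 ↔ i.1 % 8 = 1 := fun i => by
    rw [hJ1, Finset.mem_filter]
    exact ⟨fun h => h.2, fun h => ⟨Finset.mem_univ _, h⟩⟩
  have hcJ : Fintype.card J = J.card := Fintype.card_coe J
  have hcardf : ∀ (Q : ℕ → Prop) [DecidablePred Q],
      (univ.filter fun i : J => Q i.1).card = (J.filter Q).card := by
    intro Q _
    rw [← Finset.card_map (Function.Embedding.subtype fun x => x ∈ J)]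
    congr 1
    ext x
    simp only [Finset.mem_map, Finset.mem_filter, Finset.mem_univ, true_and,
      Function.Embedding.coe_subtype, Subtype.exists, exists_and_left, exists_prop,
      exists_eq_right_right]
    tauto
  have hJ1c : J1.card = (J.filter fun i => i % 8 = 1).card := by
    rw [hJ1, ← hcardf fun i => i % 8 = 1]
  have hCmem : ∀ i : J, ∀ p ∈ CC e z H i, (Sp p ∨ In e p) ∧ z < p ∧ p ≤ XX H (i.1 / 8) ∧
      p % 8 = i.1 % 8 := by
    intro i p hp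
    obtain ⟨k1, k2, k3⟩ := (mem_CC hH).1 hp
    refine ⟨k1, k2, ?_, ?_⟩
    · have := le_XX hH (in_prime k1).one_lt.le
      rw [← k3, ph_div]
      exact this
    · rw [← k3, ph_mod]
  have hne2 : ∀ p : ℕ, (Sp p ∨ In e p) → p ≠ 2 := by
    intro p hp h
    have := in_mod hI hp
    omega
  have hdis : ∀ i l : J, i ≠ l → Disjoint (CC e z H (i : ℕ)) (CC e z H (l : ℕ)) := by
    intro i l hil
    rw [Finset.disjoint_left]
    intro p hp hp'
    have h5 := ((mem_CC hH).1 hp).2.2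
    have h6 := ((mem_CC hH).1 hp').2.2
    exact hil (Subtype.ext (h5.symm.trans h6))
  have hHB : HB J1 (fun i : J => CC e z H i) (fun i : J => XX H (i.1 / 8)) κ :=
    hb_box hb1 J1 _ _ hz hκ h1 (fun i => (hJf i i.2).2.1)
      (fun i p hp => by
        obtain ⟨k1, k2, k3, k4⟩ := hCmem i p hp
        exact ⟨in_prime k1, hne2 p k1, k3, fun h => k4.trans ((hmJ1 i).1 h)⟩) hdis
  have hcard : ∀ i : J, (CC e z H (i : ℕ)).card ≤ XX H (i.1 / 8) := by
    intro i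
    have h3 : CC e z H (i : ℕ) ⊆ Finset.Icc 1 (XX H (i.1 / 8)) := by
      intro p hp
      obtain ⟨k1, k2, k3, k4⟩ := hCmem i p hp
      rw [Finset.mem_Icc]
      exact ⟨(in_prime k1).one_lt.le, k3⟩
    refine (Finset.card_le_card h3).trans ?_
    rw [Nat.card_Icc]
    omega
  have hbox := hB hE hL f J J1 (fun i : J => CC e z H i) (fun i : J => XX H (i.1 / 8)) κ S₀ hκ
    hcard hHB (fun u hu => ⟨in_prime (h₀O u hu), hne2 u (h₀O u hu)⟩) (fun i p hp => by
      obtain ⟨k1, k2, k3, k4⟩ := hCmem i p hp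
      refine ⟨in_prime k1, hne2 p k1, fun h => ?_, ?_⟩
      · have := h₀ p h
        omega
      · rw [hmJ1, k4]) hdis (by
      obtain ⟨i, hi, h2⟩ := c7
      exact ⟨⟨i, hi⟩, fun h => h2 ((hmJ1 _).1 h)⟩)
  have e1 : (((Fintype.piFinset fun i : J => CC e z H i).filter
      fun p => Nd S₀ (univ.image p) ∧ Gd f (S₀ ∪ univ.image p)).card) =
      ((RR e X z H k V).filter fun S => ky z H S = (S₀, J) ∧
        (Nd (sm z S) (la z S) ∧ Gd f S)).card := by
    refine Eq.trans (fcc ?_) ((key_bij hI hH hkey (fun S => Nd (sm z S) (la z S) ∧ Gd f S)).trans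
      (fcc fun _ _ => Iff.rfl))
    intro p hp
    rw [Fintype.mem_piFinset] at hp
    rw [sm_fill hH h₀ hp, la_fill hH h₀ hp]
  have e2 : (((Fintype.piFinset fun i : J => CC e z H i).filter
      fun p => Nd S₀ (univ.image p)).card) =
      ((RR e X z H k V).filter fun S => ky z H S = (S₀, J) ∧ Nd (sm z S) (la z S)).card := by
    refine Eq.trans (fcc ?_) ((key_bij hI hH hkey (fun S => Nd (sm z S) (la z S))).trans
      (fcc fun _ _ => Iff.rfl))
    intro p hp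
    rw [Fintype.mem_piFinset] at hp
    rw [sm_fill hH h₀ hp, la_fill hH h₀ hp]
  rw [← e1, ← e2]
  have e3 : (((Fintype.piFinset fun i : J => CC e z H i).filter
      fun p => Nd S₀ (univ.image p)).card : ℝ) ≤
      (((RR e X z H k V).filter fun S => ky z H S = (S₀, J) ∧ True).card : ℝ) := by
    rw [e2]
    have : (RR e X z H k V).filter (fun S => ky z H S = (S₀, J) ∧ Nd (sm z S) (la z S)) ⊆
        (RR e X z H k V).filter fun S => ky z H S = (S₀, J) ∧ True := by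
      intro S hS
      rw [Finset.mem_filter] at hS ⊢
      exact ⟨hS.1, hS.2.1, trivial⟩
    exact_mod_cast Finset.card_le_card this
  have hbox' : |(((Fintype.piFinset fun i : J => CC e z H i).filter
      fun p => Nd S₀ (univ.image p) ∧ Gd f (S₀ ∪ univ.image p)).card : ℝ) -
      c2 * (((Fintype.piFinset fun i : J => CC e z H i).filter
      fun p => Nd S₀ (univ.image p)).card : ℝ)| ≤
    2 * (4 ^ S₀.card / 2 ^ J1.card) *
      (((Fintype.piFinset fun i : J => CC e z H i).filter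
        fun p => Nd S₀ (univ.image p)).card : ℝ) +
    2 ^ ((2 * S₀.card + 1) * Fintype.card J + (prs J1).card) *
      (κ * ∏ j : J, ((XX H (j.1 / 8) : ℕ) : ℝ)) := by
    convert hbox
  refine hbox'.trans ?_
  have hr : (4 : ℝ) ^ S₀.card / 2 ^ J1.card ≤ (1 / 2 : ℝ) ^ V := by
    rw [div_le_iff₀ (by positivity), one_div, inv_pow, inv_mul_eq_div, le_div_iff₀ (by positivity)]
    have h4 : (4 : ℝ) ^ S₀.card = 2 ^ (2 * S₀.card) := by
      rw [pow_mul]
      norm_num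
    rw [h4, ← pow_add]
    exact pow_le_pow_right₀ (by norm_num) (by omega)
  have hJK : J.card ≤ k := by omega
  have hSK : S₀.card ≤ k := by omega
  have hprs : (prs J1).card ≤ k * k := by
    refine (Finset.card_le_card (Finset.subset_univ _)).trans ?_
    rw [Finset.card_univ, Fintype.card_prod, hcJ]
    exact Nat.mul_le_mul hJK hJK
  have hN0 : (0 : ℝ) < ((∏ p ∈ S₀, p : ℕ) : ℝ) := by
    exact_mod_cast Finset.prod_pos fun p hp => (in_prime (h₀O p hp)).pos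
  have hprod : ∏ j : J, (XX H (j.1 / 8) : ℝ) ≤ X * (1 / ((∏ p ∈ S₀, p : ℕ) : ℝ)) := by
    have h5 : ∏ j : J, (XX H (j.1 / 8) : ℝ) = ((∏ i ∈ J, XX H (i / 8) : ℕ) : ℝ) := by
      rw [← Finset.prod_coe_sort J (fun i => XX H (i / 8))]
      push_cast
      rfl
    rw [h5, mul_one_div, le_div_iff₀ hN0, mul_comm]
    exact_mod_cast c5
  have hpw : (2 : ℝ) ^ ((2 * S₀.card + 1) * Fintype.card J + (prs J1).card) ≤
      3 ^ (3 * k ^ 2) := by
    rw [hcJ]
    have h5 : (2 * S₀.card + 1) * J.card ≤ (2 * k + 1) * k := Nat.mul_le_mul (by omega) hJK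
    have h6 : k ≤ k ^ 2 := by
      rcases Nat.eq_zero_or_pos k with h | h
      · rw [h]; norm_num
      · nlinarith
    calc (2 : ℝ) ^ ((2 * S₀.card + 1) * J.card + (prs J1).card) ≤ 2 ^ (4 * k ^ 2) := by
          apply pow_le_pow_right₀ (by norm_num)
          nlinarith
      _ = 16 ^ (k ^ 2) := by rw [pow_mul]; norm_num
      _ ≤ 27 ^ (k ^ 2) := pow_le_pow_left₀ (by norm_num) (by norm_num) _
      _ = 3 ^ (3 * k ^ 2) := by rw [pow_mul]; norm_num
  have h0 : (0 : ℝ) ≤ ∏ j : J, (XX H (j.1 / 8) : ℝ) := Finset.prod_nonneg fun _ _ => by positivity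
  refine add_le_add ?_ ?_
  · gcongr
  · calc (2 : ℝ) ^ ((2 * S₀.card + 1) * Fintype.card J + (prs J1).card) *
        (κ * ∏ j : J, ((XX H (j.1 / 8) : ℕ) : ℝ)) ≤
        3 ^ (3 * k ^ 2) * (κ * (X * (1 / ((∏ p ∈ S₀, p : ℕ) : ℝ)))) := by gcongr
      _ = _ := by ring

theorem t_KEY : S_KEY := by
  intro hB1 hE hL hB
  obtain ⟨C₁, hC₁, hb1⟩ := hB1
  refine ⟨C₁, hC₁, ?_⟩
  intro e f X z H k V N κ hI hX hH hz hκ h1 hN
  set T := (RR e X z H k V).image (ky z H) with hT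
  have hfib : ∀ P : Finset ℕ → Prop, (((RR e X z H k V).filter fun S => P S).card : ℝ) =
      ∑ k' ∈ T, (((RR e X z H k V).filter fun S => ky z H S = k' ∧ P S).card : ℝ) := by
    intro P
    rw [Finset.card_eq_sum_card_fiberwise (f := ky z H) (t := T) (by
      intro S hS
      rw [Finset.mem_coe, Finset.mem_filter] at hS
      exact Finset.mem_coe.2 (Finset.mem_image_of_mem _ hS.1))]
    push_cast
    refine Finset.sum_congr rfl fun k' _ => ?_
    congr 2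
    ext S
    simp only [Finset.mem_filter]
    tauto
  have hall : ((RR e X z H k V).card : ℝ) =
      ∑ k' ∈ T, (((RR e X z H k V).filter fun S => ky z H S = k' ∧ True).card : ℝ) := by
    rw [Finset.card_eq_sum_card_fiberwise (f := ky z H) (t := T) (by
      intro S hS
      exact Finset.mem_coe.2 (Finset.mem_image_of_mem _ hS))]
    push_cast
    exact Finset.sum_congr rfl fun k' _ => congrArg _ (fcc fun _ _ => by tauto)
  have q1 : (((RR e X z H k V).filter fun S => Nd (sm z S) (la z S) ∧ Gd f S).card : ℝ) =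
      ∑ k' ∈ T, (((RR e X z H k V).filter fun S => ky z H S = k' ∧
        (Nd (sm z S) (la z S) ∧ Gd f S)).card : ℝ) :=
    (congrArg _ (fcc fun _ _ => Iff.rfl)).trans ((hfib fun S => Nd (sm z S) (la z S) ∧ Gd f S).trans
      (Finset.sum_congr rfl fun k' _ => congrArg _ (fcc fun _ _ => Iff.rfl)))
  rw [q1, hfib, Finset.mul_sum, ← Finset.sum_sub_distrib, hall, Finset.mul_sum]
  refine (Finset.abs_sum_le_sum_abs _ _).trans ?_
  have h3 : ∑ k' ∈ T, |(((RR e X z H k V).filter fun S => ky z H S = k' ∧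
      (Nd (sm z S) (la z S) ∧ Gd f S)).card : ℝ) - c2 * (((RR e X z H k V).filter fun S =>
      ky z H S = k' ∧ Nd (sm z S) (la z S)).card : ℝ)| ≤
      ∑ k' ∈ T, (2 * (1 / 2 : ℝ) ^ V * (((RR e X z H k V).filter fun S =>
      ky z H S = k' ∧ True).card : ℝ) +
      (3 ^ (3 * k ^ 2) * κ) * (X * (1 / ((∏ p ∈ k'.1, p : ℕ) : ℝ)))) := by
    refine Finset.sum_le_sum fun k' hk => ?_
    obtain ⟨S₀, J⟩ := k'
    exact per_key hE hL hB hb1 f hI hH hz hκ h1 hk
  refine h3.trans ?_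
  rw [Finset.sum_add_distrib]
  refine add_le_add (le_refl _) ?_
  -- the errors
  set U : Finset ℕ := range (8 * N) with hU
  set A := T.image Prod.fst with hA
  have hAp : ∀ S ∈ A, (∀ p ∈ S, p.Prime) ∧ ∏ p ∈ S, p ≤ X := by
    intro S hS
    rw [hA, Finset.mem_image] at hS
    obtain ⟨⟨S₀, J⟩, hk, rfl⟩ := hS
    obtain ⟨h₀O, h₀, hJi, hCd, hJf⟩ := key_facts hI hH hk
    refine ⟨fun p hp => in_prime (h₀O p hp), ?_⟩
    have h4 : 1 ≤ ∏ i ∈ J, XX H (i / 8) := by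
      apply Nat.one_le_iff_ne_zero.2
      rw [Finset.prod_ne_zero_iff]
      intro i hi
      have := (hJf i hi).2.1
      omega
    calc ∏ p ∈ S₀, p = (∏ p ∈ S₀, p) * 1 := (mul_one _).symm
      _ ≤ (∏ p ∈ S₀, p) * ∏ i ∈ J, XX H (i / 8) := Nat.mul_le_mul_left _ h4
      _ ≤ X := hCd.2.2.1
  have hsub : T ⊆ A ×ˢ (U.powerset.filter fun J => J.card ≤ k) := by
    intro k' hk
    obtain ⟨S₀, J⟩ := k'
    rw [Finset.mem_product, Finset.mem_filter, Finset.mem_powerset]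
    obtain ⟨h₀O, h₀, hJi, hCd, hJf⟩ := key_facts hI hH hk
    have hc := hCd.2.1
    refine ⟨Finset.mem_image_of_mem _ hk, ?_, by simp only; omega⟩
    intro i hi
    obtain ⟨k1, k2, q, hq, hzq, hqX, hqi⟩ := hJf i hi
    rw [hU, Finset.mem_range]
    have hH0 : (0 : ℝ) < H := by exact_mod_cast hH
    have hq0 : (0 : ℝ) < q := by exact_mod_cast hq.pos
    have h4 : (H : ℝ) * Real.log q ≤ H * Real.log X := by
      apply mul_le_mul_of_nonneg_left _ hH0.le
      exact Real.log_le_log hq0 (by exact_mod_cast hqX)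
    have h5 : ((⌊(H : ℝ) * Real.log q⌋₊ : ℕ) : ℝ) < N :=
      (Nat.floor_le (mul_nonneg hH0.le (Real.log_natCast_nonneg q))).trans_lt (h4.trans_lt hN)
    have h6 : jj H q < N := by
      unfold jj
      exact_mod_cast h5
    have h7 := ph_div H q
    rw [hqi] at h7
    omega
  have hX0 : (0 : ℝ) ≤ X := Nat.cast_nonneg X
  have hcU : ((U.powerset.filter fun J => J.card ≤ k).card : ℝ) ≤ (9 * N + 9 : ℝ) ^ k := by
    have h4 := card_sub U k
    have h5 : U.card = 8 * N := by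
      rw [hU, Finset.card_range]
    rw [h5] at h4
    have h6 : ((U.powerset.filter fun J => J.card ≤ k).card : ℝ) ≤ ((8 * N + 1 : ℕ) : ℝ) ^ k := by
      exact_mod_cast h4
    refine h6.trans ?_
    apply pow_le_pow_left₀ (by positivity)
    push_cast
    have : (0 : ℝ) ≤ N := Nat.cast_nonneg N
    linarith
  calc ∑ k' ∈ T, (3 ^ (3 * k ^ 2) * κ) * (X * (1 / ((∏ p ∈ k'.1, p : ℕ) : ℝ)))
      ≤ ∑ k' ∈ A ×ˢ (U.powerset.filter fun J => J.card ≤ k),
        (3 ^ (3 * k ^ 2) * κ) * (X * (1 / ((∏ p ∈ k'.1, p : ℕ) : ℝ))) :=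
        Finset.sum_le_sum_of_subset_of_nonneg hsub fun _ _ _ => by positivity
    _ = ((U.powerset.filter fun J => J.card ≤ k).card : ℝ) * ((3 ^ (3 * k ^ 2) * κ) *
        (X * ∑ S ∈ A, 1 / ((∏ p ∈ S, p : ℕ) : ℝ))) := by
        rw [Finset.sum_product]
        simp only [Finset.sum_const, nsmul_eq_mul]
        rw [← Finset.mul_sum, ← Finset.mul_sum, ← Finset.mul_sum]
    _ ≤ (9 * N + 9 : ℝ) ^ k * ((3 ^ (3 * k ^ 2) * κ) * (X * (1 + Real.log X))) := by
        have h4 := sum_inv hAp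
        have h5 : (0 : ℝ) ≤ ∑ S ∈ A, 1 / ((∏ p ∈ S, p : ℕ) : ℝ) :=
          Finset.sum_nonneg fun _ _ => by positivity
        gcongr
    _ = (9 * N + 9 : ℝ) ^ k * (3 ^ (3 * k ^ 2) * κ) * (X * (1 + Real.log X)) := by ring

end Pool.Agent.Y328.CV
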